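import Pool.Agent.Helper99.SZ.Stmts2
import Pool.Agent.Helper51.SZ.EVEN

set_option autoImplicit false

namespace Pool.Helper99.SZ

open NumberField

section odv

variable {K : Type} [Field K] [NumberField K] {L : Type} [Field L] [NumberField L]

lemma odv_zpow {P : Ideal (𝓞 K)} {v : Kˣ → ℤ} (hv : IsVal P v) (x : Kˣ) (n : ℤ) :
    v (x ^ n) = n * v x := by
  obtain ⟨f, hf⟩ : ∃ f : Kˣ →* Multiplicative ℤ, ∀ x, f x = Multiplicative.ofAdd (v x) :=
    ⟨MonoidHom.mk' (fun x => Multiplicative.ofAdd (v x)) (fun a b => by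
      rw [hv.mul, ofAdd_add]), fun x => rfl⟩
  have h1 := map_zpow f x n
  rw [hf, hf, ← ofAdd_zsmul] at h1
  have h2 := Multiplicative.ofAdd.injective h1
  rw [h2, smul_eq_mul]

lemma odv_inv {P : Ideal (𝓞 K)} {v : Kˣ → ℤ} (hv : IsVal P v) (x : Kˣ) :
    v x⁻¹ = - v x := by
  have h := odv_zpow hv x (-1)
  rw [zpow_neg_one] at h
  rw [h]
  ring

lemma odv_div {P : Ideal (𝓞 K)} {v : Kˣ → ℤ} (hv : IsVal P v) (x y : Kˣ) :
    v (x / y) = v x - v y := by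
  rw [div_eq_mul_inv, hv.mul, odv_inv hv]
  ring

/-- a unit at `P` -/
lemma odv_zero {P : Ideal (𝓞 K)} {v : Kˣ → ℤ} (hv : IsVal P v) (x : Kˣ)
    (h1 : Dv P 0 (x : K)) (h2 : Dv P 0 ((x : K))⁻¹) : v x = 0 := by
  have h3 : Dv P 0 ((x⁻¹ : Kˣ) : K) := by
    rw [Units.val_inv_eq_inv_val]
    exact h2
  rw [hv.dv] at h1 h3
  rw [odv_inv hv] at h3
  push_cast at h1 h3
  omega

/-- an algebraic integer outside `P` -/
lemma odv_int {P : Ideal (𝓞 K)} (hP : P.IsPrime) {v : Kˣ → ℤ} (hv : IsVal P v) (x : Kˣ)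
    (a : 𝓞 K) (ha : a ∉ P) (hx : (x : K) = (a : K)) : v x = 0 := by
  apply odv_zero hv
  · exact ⟨a, 1, fun h1 => hP.ne_top ((Ideal.eq_top_iff_one _).mpr h1), by simp, by simp [hx]⟩
  · refine ⟨1, a, ha, by simp, ?_⟩
    rw [← hx, inv_mul_cancel₀ x.ne_zero]
    simp

/-- sums -/
lemma odv_sum (hD : ST_DVB) {P : Ideal (𝓞 K)} (hP : P.IsPrime) (hP0 : P ≠ ⊥) {v : Kˣ → ℤ}
    (hv : IsVal P v) (x y : Kˣ) (h0 : 0 ≤ v y) (h1 : v y < v x) :
    ∃ z : Kˣ, (z : K) = (x : K) + (y : K) ∧ v z = v y := by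
  obtain ⟨-, hmono, hadd, hneg, -⟩ := hD K P hP hP0
  obtain ⟨n, hn⟩ := Int.eq_ofNat_of_zero_le h0
  have hx : Dv P (n + 1) (x : K) := by
    rw [hv.dv]
    push_cast
    omega
  have hy : Dv P n (y : K) := by
    rw [hv.dv]
    omega
  have hy' : ¬ Dv P (n + 1) (y : K) := by
    rw [hv.dv]
    push_cast
    omega
  have hne : (x : K) + (y : K) ≠ 0 := by
    intro h2
    apply hy'
    have h3 : (y : K) = -(x : K) := by
      rw [← add_eq_zero_iff_eq_neg', h2]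
    rw [h3]
    exact hneg _ _ hx
  refine ⟨Units.mk0 _ hne, rfl, ?_⟩
  obtain ⟨z, hz⟩ : ∃ z : Kˣ, z = Units.mk0 _ hne := ⟨_, rfl⟩
  have hzz : (z : K) = (x : K) + (y : K) := by rw [hz]; rfl
  rw [← hz]
  have h3 : Dv P n (z : K) := by
    rw [hzz]
    exact hadd _ _ _ (hmono n (n + 1) _ (Nat.le_succ n) hx) hy
  have h4 : ¬ Dv P (n + 1) (z : K) := by
    intro h5
    apply hy'
    have h6 : (y : K) = (z : K) + -(x : K) := by rw [hzz]; ring
    rw [h6]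
    exact hadd _ _ _ h5 (hneg _ _ hx)
  rw [hv.dv] at h3 h4
  push_cast at h4
  omega

/-- the prime number `p` has valuation one -/
lemma odv_p (hCU : ST_CU1) (hD : ST_DVB) {β : K} {a b c : ℤ} {κ : 𝓞 K} {m : ℕ}
    {p : Fin m → ℕ} {P : Fin m → Ideal (𝓞 K)} {𝔞 : Ideal (𝓞 K)}
    (h : CD K β a b c κ m p P 𝔞) (j : Fin m) (v : Kˣ → ℤ) (hv : IsVal (P j) v) (k : Kˣ)
    (hk : (k : K) = (p j : K)) : v k = 1 := by
  obtain ⟨hpr, hbot⟩ := h.pr j
  obtain ⟨hkg, hI, -, hdis, hκ, -⟩ := hCU.2 K β a b c κ h.cf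
  set n := (dis a b c).natAbs.factorization (p j) with hn
  have hpp := h.pp j
  have hd0 : (dis a b c).natAbs ≠ 0 := by rw [Int.natAbs_ne_zero]; exact hdis
  have hn1 : 1 ≤ n := by
    have h1 : p j ∣ (dis a b c).natAbs := by
      have := h.pd j
      rwa [Int.natCast_dvd] at this
    have h2 := (hpp.pow_dvd_iff_le_factorization hd0 (k := 1)).mp (by rwa [pow_one])
    exact h2
  -- the derivative is not in `P`
  obtain ⟨g, hg⟩ : ∃ g : 𝓞 K, g = ((a ^ 2 - 3 * b : ℤ) : 𝓞 K) - κ := ⟨_, rfl⟩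
  have hgK : (g : K) = 3 * β ^ 2 + 2 * a * β + b := by
    have h1 : (g : K) = ((a ^ 2 - 3 * b : ℤ) : K) - (κ : K) := by
      rw [hg]
      simp
      exact Or.inl (map_ofNat _ 3)
    rw [h1, ← hI]
    ring
  have hint : ∀ z : ℤ, ¬ (p j : ℤ) ∣ z → ((z : ℤ) : 𝓞 K) ∉ P j := by
    intro z hz hmem
    have hco : IsCoprime ((p j : ℕ) : ℤ) z :=
      (Nat.prime_iff_prime_int.mp hpp).irreducible.coprime_iff_not_dvd.mpr hz
    obtain ⟨r, s, hrs⟩ := hco
    apply hpr.ne_top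
    rw [Ideal.eq_top_iff_one]
    have h2 : (1 : 𝓞 K) = ((r : ℤ) : 𝓞 K) * ((p j : ℕ) : 𝓞 K) + ((s : ℤ) : 𝓞 K) * ((z : ℤ) : 𝓞 K) := by
      have h3 := congrArg (fun t : ℤ => ((t : ℤ) : 𝓞 K)) hrs
      simp only [Int.cast_add, Int.cast_mul, Int.cast_one, Int.cast_natCast] at h3
      exact h3.symm
    rw [h2]
    exact Ideal.add_mem _ (Ideal.mul_mem_left _ _ (h.pm j)) (Ideal.mul_mem_left _ _ hmem)
  have hgP : g ∉ P j := by
    intro h1
    apply hint _ (h.pI j)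
    have h2 : ((a ^ 2 - 3 * b : ℤ) : 𝓞 K) = g + κ := by rw [hg]; ring
    rw [h2]
    exact Ideal.add_mem _ h1 (h.km j)
  have hg0 : (g : K) ≠ 0 := by
    intro h1
    apply hgP
    have h2 : g = 0 := by exact_mod_cast h1
    rw [h2]
    exact Ideal.zero_mem _
  have hκ0 : (κ : K) ≠ 0 := by
    intro h1
    exact hκ (by exact_mod_cast h1)
  have hvg : v (Units.mk0 _ hg0) = 0 := odv_int hpr hv _ g hgP rfl
  have hvk : v (Units.mk0 _ hκ0) = n := odd_kap hCU hD h j v hv _ rfl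
  -- the discriminant
  obtain ⟨q, hq⟩ : ∃ q : ℤ, dis a b c = (p j : ℤ) ^ n * q ∧ ¬ (p j : ℤ) ∣ q := by
    have h1 : ((p j) ^ n : ℕ) ∣ (dis a b c).natAbs := Nat.ordProj_dvd _ _
    have h2 : ((p j : ℤ)) ^ n ∣ dis a b c := by
      have := Int.natCast_dvd.mpr h1
      push_cast at this
      exact this
    obtain ⟨q, hq⟩ := h2
    refine ⟨q, hq, ?_⟩
    rintro ⟨q', hq'⟩
    have h3 : ((p j : ℤ)) ^ (n + 1) ∣ dis a b c := ⟨q', by rw [hq, hq']; ring⟩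
    have h4 : (p j) ^ (n + 1) ∣ (dis a b c).natAbs := by
      rw [← Int.natCast_dvd]
      push_cast
      exact h3
    have h5 := (hpp.pow_dvd_iff_le_factorization hd0).mp h4
    omega
  obtain ⟨hq1, hq2⟩ := hq
  have hqP := hint q hq2
  have hq0 : ((q : ℤ) : K) ≠ 0 := by
    intro h1
    apply hq2
    have h2 : q = 0 := by exact_mod_cast h1
    rw [h2]
    exact dvd_zero _
  have hvq : v (Units.mk0 _ hq0) = 0 := odv_int hpr hv _ ((q : ℤ) : 𝓞 K) hqP (by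
    simp)
  have heq : Units.mk0 _ hκ0 * (Units.mk0 _ hg0 * Units.mk0 _ hg0) =
      k ^ (n : ℤ) * Units.mk0 _ hq0 := by
    apply Units.ext
    rw [Units.val_mul, Units.val_mul, Units.val_mul, Units.val_mk0, Units.val_mk0, Units.val_mk0,
      zpow_natCast, Units.val_pow_eq_pow_val, hk, hgK]
    have h1 : ((dis a b c : ℤ) : K) = (p j : K) ^ n * ((q : ℤ) : K) := by
      rw [hq1]
      push_cast
      ring
    rw [← h1, ← hkg]
    ring
  have h1 := congrArg v heq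
  rw [hv.mul, hv.mul, hv.mul, hvg, hvk, hvq, odv_zpow hv] at h1
  have h2 : ((n : ℕ) : ℤ) * v k = n * 1 := by
    rw [mul_one]
    linarith only [h1]
  have h3 : ((n : ℕ) : ℤ) ≠ 0 := by
    have : n ≠ 0 := by omega
    exact_mod_cast this
  exact mul_left_cancel₀ h3 h2

/-- the valuation of an element of `K` -/
lemma odv_ext (hCU : ST_CU1) (hD : ST_DVB) {β : K} {a b c : ℤ} {κ : 𝓞 K} {m : ℕ}
    {p : Fin m → ℕ} {P : Fin m → Ideal (𝓞 K)} {𝔞 : Ideal (𝓞 K)}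
    (h : CD K β a b c κ m p P 𝔞) (j : Fin m) (v : Kˣ → ℤ) (hv : IsVal (P j) v)
    (e : K →+* L) {Q : Ideal (𝓞 L)}
    (ho : ∀ x : 𝓞 K, RingOfIntegers.mapRingHom e x ∈ Q ↔ x ∈ P j) (vQ : Lˣ → ℤ)
    (hvQ : IsVal Q vQ) (pQ : Lˣ) (hpQ : (pQ : L) = (p j : L)) (w : Kˣ) (W : Lˣ)
    (hW : (W : L) = e (w : K)) : vQ W = vQ pQ * v w := by
  have hp0 : ((p j : ℕ) : K) ≠ 0 := by
    have := (h.pp j).ne_zero
    exact_mod_cast this
  obtain ⟨k, hk⟩ : ∃ k : Kˣ, (k : K) = (p j : K) := ⟨Units.mk0 _ hp0, rfl⟩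
  have hvk := odv_p hCU hD h j v hv k hk
  obtain ⟨w0, hw0⟩ : ∃ w0 : Kˣ, w0 = w * k ^ (-(v w)) := ⟨_, rfl⟩
  have hv0 : v w0 = 0 := by
    rw [hw0, hv.mul, odv_zpow hv, hvk]
    ring
  have h1 : Dv (P j) 0 (w0 : K) := by
    rw [hv.dv, hv0]
    simp
  have h2 : Dv (P j) 0 ((w0⁻¹ : Kˣ) : K) := by
    rw [hv.dv, odv_inv hv, hv0]
    simp
  have h3 := odd_lift e ho 0 _ h1
  have h4 := odd_lift e ho 0 _ h2
  obtain ⟨W0, hW0⟩ : ∃ W0 : Lˣ, W0 = W * pQ ^ (-(v w)) := ⟨_, rfl⟩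
  have hval : (W0 : L) = e (w0 : K) := by
    rw [hW0, hw0, Units.val_mul, Units.val_mul, Units.val_zpow_eq_zpow_val,
      Units.val_zpow_eq_zpow_val, map_mul, map_zpow₀, hk, hpQ, hW, map_natCast]
  have h5 : vQ W0 = 0 := by
    apply odv_zero hvQ
    · rw [hval]
      exact h3
    · rw [hval, ← map_inv₀, ← Units.val_inv_eq_inv_val]
      exact h4
  rw [hW0, hvQ.mul, odv_zpow hvQ] at h5
  linarith only [h5]

/-- differences of two conjugates -/
lemma odv_diff (hCU : ST_CU1) {β : K} {a b c : ℤ} {κ : 𝓞 K} (h : CF K β a b c κ)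
    (e : Fin 3 → (K →+* L)) (he : Function.Injective e) (u : K) :
    ∃ h' : K, e 2 u - e 1 u = (e 2 β - e 1 β) * e 0 h' := by
  obtain ⟨-, -, -, -, -, hemb⟩ := hCU.2 K β a b c κ h
  obtain ⟨hne, hsum, hsq, -⟩ := hemb L e he
  obtain ⟨q0, q1, q2, hq⟩ := odd_basis h u
  refine ⟨(q1 : K) - (q2 : K) * a - (q2 : K) * β, ?_⟩
  rw [hq]
  simp only [map_add, map_sub, map_mul, map_pow, odd_Q, map_intCast]
  have h1 : e 0 β = -a - e 1 β - e 2 β := by rw [← hsum]; ring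
  rw [h1]
  ring

/-- residues are natural numbers -/
lemma odv_res (hD : ST_DVB) {P : Ideal (𝓞 K)} (hP : P.IsPrime) (hP0 : P ≠ ⊥) (p : ℕ)
    (hp : p.Prime) (hN : Ideal.absNorm P = p) (x : K) (hx : Dv P 0 x) :
    ∃ c : ℕ, Dv P 1 (x - (c : K)) := by
  obtain ⟨n, hn⟩ := even_res hP hP0 x hx
  have hfin : Nat.card (𝓞 K ⧸ P) = p := by
    rw [← hN, Ideal.absNorm_apply, Submodule.cardQuot_apply]
  have hfin2 : Finite (𝓞 K ⧸ P) := by
    apply Nat.finite_of_card_ne_zero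
    rw [hfin]
    exact hp.ne_zero
  have := Fintype.ofFinite (𝓞 K ⧸ P)
  have hcard : Fintype.card (𝓞 K ⧸ P) = p := by rw [← Nat.card_eq_fintype_card, hfin]
  have : Fact p.Prime := ⟨hp⟩
  obtain ⟨f⟩ : Nonempty (ZMod p ≃+* (𝓞 K ⧸ P)) := ⟨ZMod.ringEquivOfPrime _ hp hcard⟩
  refine ⟨(f.symm (Ideal.Quotient.mk P n)).val, ?_⟩
  obtain ⟨c, hc⟩ : ∃ c : ℕ, c = (f.symm (Ideal.Quotient.mk P n)).val := ⟨_, rfl⟩
  rw [← hc]
  have h1 : Ideal.Quotient.mk P n = Ideal.Quotient.mk P ((c : ℕ) : 𝓞 K) := by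
    rw [map_natCast, ← map_natCast f, hc, ZMod.natCast_zmod_val, RingEquiv.apply_symm_apply]
  rw [Ideal.Quotient.eq] at h1
  have h2 : Dv P 1 ((n : K) - (c : K)) := by
    refine ⟨n - (c : 𝓞 K), 1, fun h1 => hP.ne_top ((Ideal.eq_top_iff_one _).mpr h1), ?_, ?_⟩
    · rw [pow_one]
      exact h1
    · push_cast
      ring
  have h3 := (hD K P hP hP0).2.2.1 1 _ _ hn h2
  have h4 : x - (n : K) + ((n : K) - (c : K)) = x - (c : K) := by ring
  rw [h4] at h3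
  exact h3

end odv

theorem st_ODV (hCU : ST_CU1) (hV : ST_VAL) (hD : ST_DVB) : ST_ODV := by
  intro K _ _ β a b c κ m p P 𝔞 h L _ _ e he j0 Q hQ vQ hvQ
  obtain ⟨-, -, hN, hdis, hκ, hemb⟩ := hCU.2 K β a b c κ h.cf
  obtain ⟨hne, hsum, hsq, -⟩ := hemb L e he
  obtain ⟨hpr, hbot⟩ := h.pr j0
  obtain ⟨-, hmono, hadd, hneg, hmul, hunit, hzpow, hmul1, -⟩ := hD L Q hQ.pr hQ.bot
  obtain ⟨vP, hvP⟩ := hV K (P j0) hpr hbot
  have hp0 : ((p j0 : ℕ) : L) ≠ 0 := by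
    have := (h.pp j0).ne_zero
    exact_mod_cast this
  obtain ⟨pQ, hpQ⟩ : ∃ k : Lˣ, (k : L) = (p j0 : L) := ⟨Units.mk0 _ hp0, rfl⟩
  have hpP0 : ((p j0 : ℕ) : K) ≠ 0 := by
    have := (h.pp j0).ne_zero
    exact_mod_cast this
  obtain ⟨pP, hpP⟩ : ∃ k : Kˣ, (k : K) = (p j0 : K) := ⟨Units.mk0 _ hpP0, rfl⟩
  have hvpP := odv_p hCU hD h j0 vP hvP pP hpP
  have hE1 : 1 ≤ vQ pQ := by
    have h1 : Dv Q 1 (pQ : L) := by
      refine ⟨((p j0 : ℕ) : 𝓞 L), 1, fun h1 => hQ.pr.ne_top ((Ideal.eq_top_iff_one _).mpr h1),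
        ?_, ?_⟩
      · rw [pow_one]
        exact hQ.pm
      · rw [hpQ]
        simp
    rw [hvQ.dv] at h1
    exact_mod_cast h1
  obtain ⟨E, hE⟩ := Int.eq_ofNat_of_zero_le (le_trans zero_le_one hE1)
  have hext := odv_ext hCU hD h j0 vP hvP (e 0) hQ.ovr vQ hvQ pQ hpQ
  rw [hE] at hext hE1
  refine ⟨E, by exact_mod_cast hE1, ?_, ?_, ?_⟩
  · intro x hx
    have h1 : x = pQ := Units.ext (by rw [hx, hpQ])
    rw [h1, hE]
  · intro y hy
    obtain ⟨ψ, hψ⟩ : ∃ ψ, ψ = e 2 (y : K) / e 1 (y : K) := ⟨_, rfl⟩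
    rw [← hψ] at hy ⊢
    rcases eq_or_ne (ψ - 1) 0 with h0 | h0
    · rw [h0]
      exact odd_Dzero hQ.pr _
    obtain ⟨hψ0, hψ1, hψ2⟩ := hunit ψ hy
    have he1 : e 1 (y : K) ≠ 0 := by
      rw [Ne, map_eq_zero]
      exact y.ne_zero
    have he2 : e 2 (y : K) ≠ 0 := by
      rw [Ne, map_eq_zero]
      exact y.ne_zero
    obtain ⟨h', hh'⟩ := odv_diff hCU h.cf e he (y : K)
    obtain ⟨A, B, -, hB⟩ := even_sym hCU h.cf e he (y : K)
    have hρ := hsq 0 2 1 (by decide) (by decide) (by decide)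
    have hψe : ψ - 1 = (e 2 (y : K) - e 1 (y : K)) / e 1 (y : K) := by
      rw [hψ]
      field_simp
    have hh0 : h' ≠ 0 := by
      intro h1
      apply h0
      rw [hψe, hh', h1, map_zero, mul_zero, zero_div]
    have hκ0 : (κ : K) ≠ 0 := by
      intro h1
      exact hκ (by exact_mod_cast h1)
    have hB0 : B ≠ 0 := by
      intro h1
      rw [h1, map_zero] at hB
      exact mul_ne_zero he1 he2 hB.symm
    obtain ⟨w, hw⟩ : ∃ w : Kˣ, (w : K) = κ * h' ^ 2 / B :=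
      ⟨Units.mk0 _ (div_ne_zero (mul_ne_zero hκ0 (pow_ne_zero 2 hh0)) hB0), rfl⟩
    obtain ⟨δ, hδ⟩ : ∃ δ : Lˣ, (δ : L) = ψ - 1 := ⟨Units.mk0 _ h0, rfl⟩
    obtain ⟨Ψ, hΨ⟩ : ∃ Ψ : Lˣ, (Ψ : L) = ψ := ⟨Units.mk0 _ hψ0, rfl⟩
    have hW : ((δ * δ / Ψ : Lˣ) : L) = e 0 (w : K) := by
      rw [hw, map_div₀, map_mul, map_pow, hB, ← hρ, Units.val_div_eq_div_val, Units.val_mul, hδ,
        hΨ, hψe, hh', hψ]
      field_simp
    have h1 := hext w _ hW
    have h2 : vQ Ψ = 0 := by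
      apply odv_zero hvQ
      · rw [hΨ]
        exact hψ1
      · rw [hΨ]
        exact hψ2
    rw [odv_div hvQ, hvQ.mul, h2] at h1
    rw [← hδ, hvQ.dv] at hy ⊢
    have h3 : 0 < vP w := by
      by_contra h4
      have h5 : (E : ℤ) * vP w ≤ 0 :=
        mul_nonpos_of_nonneg_of_nonpos (by positivity) (not_lt.mp h4)
      push_cast at hy
      omega
    have h4 : (E : ℤ) * 1 ≤ E * vP w := mul_le_mul_of_nonneg_left h3 (by positivity)
    push_cast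
    omega
  · intro y y' x x' hx hx' h1 h2 h3
    have he1 : e 1 (y : K) ≠ 0 := by
      rw [Ne, map_eq_zero]
      exact y.ne_zero
    have he1' : e 1 (y' : K) ≠ 0 := by
      rw [Ne, map_eq_zero]
      exact y'.ne_zero
    have h20 : (2 : L) ≠ 0 := two_ne_zero
    obtain ⟨x2, hx2⟩ : ∃ x2 : Lˣ, (x2 : L) = 2 := ⟨Units.mk0 _ h20, rfl⟩
    have hf := h3 x2 hx2
    have hf0 : 0 ≤ vQ x2 := by
      have h4 : Dv Q 0 (x2 : L) := by
        refine ⟨2, 1, fun h1 => hQ.pr.ne_top ((Ideal.eq_top_iff_one _).mpr h1), by simp, ?_⟩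
        rw [hx2]
        simp
        exact (map_ofNat (algebraMap (𝓞 L) L) 2).symm
      rw [hvQ.dv] at h4
      exact_mod_cast h4
    obtain ⟨s, hs, hvs⟩ := odv_sum hD hQ.pr hQ.bot hvQ x x2 hf0 (lt_of_lt_of_le hf h2)
    obtain ⟨s', hs', hvs'⟩ := odv_sum hD hQ.pr hQ.bot hvQ x' x2 hf0 hf
    rw [hx2] at hs hs'
    obtain ⟨d, hd⟩ := odv_diff hCU h.cf e he (y : K)
    obtain ⟨d', hd'⟩ := odv_diff hCU h.cf e he (y' : K)
    obtain ⟨A, -, hA, -⟩ := even_sym hCU h.cf e he (y : K)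
    obtain ⟨A', -, hA', -⟩ := even_sym hCU h.cf e he (y' : K)
    have hxe : (x : L) = (e 2 β - e 1 β) * e 0 d / e 1 (y : K) := by
      rw [hx, ← hd]
      field_simp
    have hxe' : (x' : L) = (e 2 β - e 1 β) * e 0 d' / e 1 (y' : K) := by
      rw [hx', ← hd']
      field_simp
    have hse : (s : L) = e 0 A / e 1 (y : K) := by
      rw [hs, hx, hA]
      field_simp
      ring
    have hse' : (s' : L) = e 0 A' / e 1 (y' : K) := by
      rw [hs', hx', hA']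
      field_simp
      ring
    have hρ0 : e 2 β - e 1 β ≠ 0 := sub_ne_zero.mpr (hne 2 1 (by decide))
    have hd0 : d ≠ 0 := by
      intro h4
      apply x.ne_zero
      rw [hxe, h4, map_zero, mul_zero, zero_div]
    have hd0' : d' ≠ 0 := by
      intro h4
      apply x'.ne_zero
      rw [hxe', h4, map_zero, mul_zero, zero_div]
    have hA0 : A ≠ 0 := by
      intro h4
      apply s.ne_zero
      rw [hse, h4, map_zero, zero_div]
    have hA0' : A' ≠ 0 := by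
      intro h4
      apply s'.ne_zero
      rw [hse', h4, map_zero, zero_div]
    obtain ⟨k, hk⟩ : ∃ k : Kˣ, (k : K) = d * A' / (A * d') :=
      ⟨Units.mk0 _ (div_ne_zero (mul_ne_zero hd0 hA0') (mul_ne_zero hA0 hd0')), rfl⟩
    have hed' : e 0 d' ≠ 0 := by
      rw [Ne, map_eq_zero]
      exact hd0'
    have heA : e 0 A ≠ 0 := by
      rw [Ne, map_eq_zero]
      exact hA0
    have heA' : e 0 A' ≠ 0 := by
      rw [Ne, map_eq_zero]
      exact hA0'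
    have hkW : ((x / s * (s' / x') : Lˣ) : L) = e 0 (k : K) := by
      rw [hk, Units.val_mul, Units.val_div_eq_div_val, Units.val_div_eq_div_val, hxe, hxe', hse,
        hse', map_div₀, map_mul, map_mul]
      field_simp
    have h4 := hext k _ hkW
    rw [hvQ.mul, odv_div hvQ, odv_div hvQ, hvs, hvs'] at h4
    have hn : 0 ≤ vP k := by
      by_contra h5
      have h6 : (E : ℤ) * vP k < 0 := mul_neg_of_pos_of_neg (by omega) (not_le.mp h5)
      omega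
    obtain ⟨j, hj⟩ := Int.eq_ofNat_of_zero_le hn
    obtain ⟨k0, hk0⟩ : ∃ k0 : Kˣ, k0 = k * pP ^ (-(j : ℤ)) := ⟨_, rfl⟩
    have hvk0 : vP k0 = 0 := by
      rw [hk0, hvP.mul, odv_zpow hvP, hvpP, hj]
      simp
    have hk0P : Dv (P j0) 0 (k0 : K) := by
      rw [hvP.dv, hvk0]
      simp
    obtain ⟨c0, hc0⟩ := odv_res hD hpr hbot (p j0) (h.pp j0) (h.nm j0) (k0 : K) hk0P
    have hc0Q := odd_lift (e 0) hQ.ovr 1 _ hc0
    rw [map_sub, map_natCast] at hc0Q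
    have hek : e 0 (k : K) = (p j0 : L) ^ j * e 0 (k0 : K) := by
      have h5 : (k : K) = (pP : K) ^ j * (k0 : K) := by
        rw [hk0, Units.val_mul, zpow_neg, zpow_natCast, Units.val_inv_eq_inv_val,
          Units.val_pow_eq_pow_val]
        have := pP.ne_zero
        field_simp
      rw [h5, map_mul, map_pow, hpP, map_natCast]
    have hvx : vQ x = vQ x' + j * E := by
      rw [hj] at h4
      linarith only [h4]
    refine ⟨j, c0, hvx, ?_⟩
    obtain ⟨n', hn'⟩ := Int.eq_ofNat_of_zero_le (le_trans zero_le_one h1)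
    obtain ⟨n, hn2⟩ := Int.eq_ofNat_of_zero_le (le_trans (le_trans zero_le_one h1) h2)
    rw [hn2, Int.toNat_natCast]
    have hnn : n = n' + j * E := by
      rw [hn', hn2] at hvx
      exact_mod_cast hvx
    have hxD : Dv Q n (x : L) := by
      rw [hvQ.dv, hn2]
    have hxD' : Dv Q n' (x' : L) := by
      rw [hvQ.dv, hn']
    have hpD : Dv Q (j * E) ((p j0 : L) ^ j) := by
      rw [← hpQ, ← Units.val_pow_eq_pow_val, hvQ.dv, ← zpow_natCast, odv_zpow hvQ, hE]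
      push_cast
      exact le_refl _
    have hsx : (s' : L)⁻¹ * ((x : L) - x') = (s : L) / s' - 1 := by
      have := s'.ne_zero
      field_simp
      rw [hs, hs']
      ring
    have hr : Dv Q 1 ((s : L) / s' - 1) := by
      rcases eq_or_ne ((x : L) - x') 0 with h5 | h5
      · rw [← hsx, h5, mul_zero]
        exact odd_Dzero hQ.pr 1
      · obtain ⟨z, hz⟩ : ∃ z : Lˣ, (z : L) = (x : L) - x' := ⟨Units.mk0 _ h5, rfl⟩
        have h6 : Dv Q n' (z : L) := by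
          rw [hz, sub_eq_add_neg]
          exact hadd _ _ _ (hmono n' n _ (by omega) hxD) (hneg _ _ hxD')
        rw [hvQ.dv] at h6
        rw [← hsx, ← hz, ← Units.val_inv_eq_inv_val, ← Units.val_mul, hvQ.dv, hvQ.mul,
          odv_inv hvQ, hvs']
        push_cast
        omega
    have hfin : (x : L) - (c0 * p j0 ^ j : ℕ) * (x' : L) =
        ((s : L) / s' - 1) * (((p j0 : L) ^ j * e 0 (k0 : K)) * x') +
          ((p j0 : L) ^ j * (e 0 (k0 : K) - c0)) * x' := by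
      rw [← hek, mul_sub, ← hek, ← hkW]
      push_cast
      have h5 := s.ne_zero
      have h6 := s'.ne_zero
      have h7 := x'.ne_zero
      field_simp
      ring
    have hk0Q : Dv Q 0 (e 0 (k0 : K)) := odd_lift (e 0) hQ.ovr 0 _ hk0P
    rw [hfin]
    apply hadd
    · have h5 := hmul 1 (j * E + 0 + n') _ _ hr (hmul (j * E + 0) n' _ _
        (hmul (j * E) 0 _ _ hpD hk0Q) hxD')
      have h6 : 1 + (j * E + 0 + n') = n + 1 := by omega
      rw [h6] at h5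
      exact h5
    · have h5 := hmul (j * E + 1) n' _ _ (hmul (j * E) 1 _ _ hpD hc0Q) hxD'
      have h6 : j * E + 1 + n' = n + 1 := by omega
      rw [h6] at h5
      exact h5

end Pool.Helper99.SZ
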